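import Pool.Agent.V1120.Bandlow.AxiomR

/-!
# MP_ba6bfd_gt: property (∗) implies Corson compactness under a reflection principle
-/

set_option autoImplicit false

namespace Pool.Agent.Results.MP_ba6bfd_gt.CorsonUnderReflection

open Set

/-- `K` embeds as a bounded subset of some `c₀(Γ)` with the pointwise topology (for compact `K`:
Eberlein compactness). -/
def IsEberlein (K : Type) [TopologicalSpace K] : Prop :=
  ∃ (Γ : Type) (f : K → (Γ → ℝ)), Continuous f ∧ Function.Injective f ∧
    (∀ x, Filter.Tendsto (f x) Filter.cofinite (nhds 0)) ∧ ∃ M : ℝ, ∀ x γ, |f x γ| ≤ M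

/-- Property (∗): the closure of every subset of size at most continuum is Eberlein compact. -/
def PropertyStar (X : Type) [TopologicalSpace X] : Prop :=
  ∀ A : Set X, Cardinal.mk A ≤ Cardinal.continuum → IsEberlein ↥(closure A)

/-- `K` embeds in a Σ-product of real lines (for compact `K`: Corson compactness). -/
def IsCorson (K : Type) [TopologicalSpace K] : Prop :=
  ∃ (Γ : Type) (f : K → (Γ → ℝ)), Topology.IsEmbedding f ∧ ∀ x, (Function.support (f x)).Countable

/-- `T` is stationary in `[N]^{≤ω}`: every operation `h` from finite sets to countable sets has a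
countable `M ∈ T`, `M ⊆ N`, which is closed under `h` inside `N`. -/
def StationaryIn {Z : Type} (N : Set Z) (T : Set (Set Z)) : Prop :=
  ∀ h : Finset Z → Set Z, (∀ s, (h s).Countable) →
    ∃ M ∈ T, M.Countable ∧ M ⊆ N ∧ ∀ s : Finset Z, ↑s ⊆ M → h s ∩ N ⊆ M

/-- Reflection principle: every stationary family `T` of countable subsets of `Z` reflects to a set
`N` of size at most continuum which is closed under a prescribed operation `g` on sequences (with
countable values). -/
def Reflection : Prop :=
  ∀ (Z : Type) (T : Set (Set Z)), StationaryIn univ T →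
    ∀ g : (ℕ → Z) → Set Z, (∀ u, (g u).Countable) →
      ∃ N : Set Z, Cardinal.mk N ≤ Cardinal.continuum ∧
        (∀ u : ℕ → Z, (∀ n, u n ∈ N) → g u ⊆ N) ∧ StationaryIn N T

/-- Fleissner's Axiom R: a stationary family of countable subsets of `Z` reflects to a member of any
given family `𝒯` of sets of size at most `ℵ₁` which is unbounded and closed under unions of
increasing chains of length `ω₁`. -/
def AxiomR : Prop :=
  ∀ (Z : Type) (T : Set (Set Z)), StationaryIn Set.univ T →
    ∀ 𝒯 : Set (Set Z), (∀ N ∈ 𝒯, Cardinal.mk N ≤ Cardinal.aleph 1) →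
      (∀ E : Set Z, Cardinal.mk E ≤ Cardinal.aleph 1 → ∃ N ∈ 𝒯, E ⊆ N) →
      (∀ N : (Cardinal.aleph.{0} 1).ord.ToType → Set Z, Monotone N → (∀ a, N a ∈ 𝒯) →
        (⋃ a, N a) ∈ 𝒯) →
      ∃ N ∈ 𝒯, StationaryIn N T

theorem countable_support {Γ : Type} {g : Γ → ℝ}
    (hg : Filter.Tendsto g Filter.cofinite (nhds 0)) : (Function.support g).Countable := by
  have h1 : ∀ n : ℕ, {γ | 1 / ((n : ℝ) + 1) ≤ |g γ|}.Countable := by
    intro n
    have h2 : ∀ᶠ γ in Filter.cofinite, |g γ| < 1 / ((n : ℝ) + 1) := by
      have h3 := hg.abs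
      rw [abs_zero] at h3
      exact h3.eventually_lt_const (by positivity)
    rw [Filter.eventually_cofinite] at h2
    refine (h2.subset ?_).countable
    intro γ hγ
    exact not_lt.2 hγ
  refine (countable_iUnion h1).mono ?_
  intro γ hγ
  obtain ⟨n, hn⟩ := exists_nat_one_div_lt (abs_pos.2 hγ)
  exact mem_iUnion.2 ⟨n, hn.le⟩

theorem IsEberlein.isCorson {K : Type} [TopologicalSpace K] [CompactSpace K] (h : IsEberlein K) :
    IsCorson K := by
  obtain ⟨Γ, f, hf, hi, h0, _⟩ := h
  exact ⟨Γ, f, (hf.isClosedEmbedding hi).isEmbedding, fun x => countable_support (h0 x)⟩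

/-- If the reflection principle holds, or if the continuum hypothesis and Axiom R hold, then every
compact space with property (∗) is Corson compact. -/
theorem result (h : Reflection ∨ (Cardinal.aleph 1 = (Cardinal.continuum : Cardinal.{0}) ∧ AxiomR))
    (X : Type) [TopologicalSpace X] [CompactSpace X] [T2Space X] (hX : PropertyStar X) :
    IsCorson X := by
  have hR : V1120.Bandlow.Reflection := by
    rcases h with h | ⟨h1, h2⟩
    · exact h
    · exact V1120.Bandlow.reflection_of_axiomR h1 h2
  refine V1120.Bandlow.positive (X := X) hR (fun A hA => ?_)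
  have : CompactSpace ↥(closure A) := isCompact_iff_compactSpace.1 isClosed_closure.isCompact
  exact (hX A hA).isCorson

end Pool.Agent.Results.MP_ba6bfd_gt.CorsonUnderReflection
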