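import Pool.Agent.V1120.Ladder.Uniform

/-!
# MP_ba6bfd_gt: a positive answer implies stationary reflection above the continuum

If every compact space with property (∗) is Eberlein compact, then for every regular cardinal
`κ > 𝔠` every stationary set of points of countable cofinality of `κ` reflects at a point of
uncountable cofinality.
-/

set_option autoImplicit false

namespace Pool.Agent.Results.MP_ba6bfd_gt.StationaryReflection

open Set

/-- `K` embeds as a bounded subset of some `c₀(Γ)` with the pointwise topology (for compact `K`: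
Eberlein compactness). -/
def IsEberlein (K : Type) [TopologicalSpace K] : Prop :=
  ∃ (Γ : Type) (f : K → (Γ → ℝ)), Continuous f ∧ Function.Injective f ∧
    (∀ x, Filter.Tendsto (f x) Filter.cofinite (nhds 0)) ∧ ∃ M : ℝ, ∀ x γ, |f x γ| ≤ M

/-- Property (∗): the closure of every subset of size at most continuum is Eberlein compact. -/
def PropertyStar (X : Type) [TopologicalSpace X] : Prop :=
  ∀ A : Set X, Cardinal.mk A ≤ Cardinal.continuum → IsEberlein ↥(closure A)

/-- `K` embeds in a Σ-product of real lines (for compact `K`: Corson compactness). -/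
def IsCorson (K : Type) [TopologicalSpace K] : Prop :=
  ∃ (Γ : Type) (f : K → (Γ → ℝ)), Topology.IsEmbedding f ∧ ∀ x, (Function.support (f x)).Countable

/-- The positive answer to Q1 (the frozen statement S13827). -/
def PositiveAnswer : Prop :=
  ∀ (X : Type) [TopologicalSpace X] [CompactSpace X] [T2Space X], PropertyStar X → IsEberlein X

theorem countable_support {Γ : Type} {g : Γ → ℝ}
    (hg : Filter.Tendsto g Filter.cofinite (nhds 0)) : (Function.support g).Countable := by
  have h1 : ∀ n : ℕ, {γ | 1 / ((n : ℝ) + 1) ≤ |g γ|}.Countable := by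
    intro n
    have h2 : ∀ᶠ γ in Filter.cofinite, |g γ| < 1 / ((n : ℝ) + 1) := by
      have h3 := hg.abs
      rw [abs_zero] at h3
      exact h3.eventually_lt_const (by positivity)
    rw [Filter.eventually_cofinite] at h2
    refine (h2.subset ?_).countable
    intro γ hγ
    exact not_lt.2 hγ
  refine (countable_iUnion h1).mono ?_
  intro γ hγ
  obtain ⟨n, hn⟩ := exists_nat_one_div_lt (abs_pos.2 hγ)
  exact mem_iUnion.2 ⟨n, hn.le⟩

theorem IsEberlein.isCorson {K : Type} [TopologicalSpace K] [CompactSpace K] (h : IsEberlein K) :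
    IsCorson K := by
  obtain ⟨Γ, f, hf, hi, h0, _⟩ := h
  exact ⟨Γ, f, (hf.isClosedEmbedding hi).isEmbedding, fun x => countable_support (h0 x)⟩

theorem bounded_of_lt {κ : Cardinal.{0}} (hκ : κ.IsRegular) (B : Set κ.ord.ToType)
    (hB : Cardinal.mk B < κ) : ∃ b, ∀ x ∈ B, x < b := by
  by_contra hcon
  push Not at hcon
  have hcof : IsCofinal B := fun b => by
    obtain ⟨x, hx, hbx⟩ := hcon b
    exact ⟨x, hx, hbx⟩
  have h1 := Order.cof_le hcof
  rw [Ordinal.cof_toType, hκ.cof_ord] at h1
  exact absurd hB (not_lt.2 h1)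

/-- A positive answer to Q1 implies that every stationary set of points of countable cofinality in a
regular cardinal `κ > 𝔠` reflects at a point of uncountable cofinality. -/
theorem result (hpos : PositiveAnswer) (κ : Cardinal.{0}) (hκ : κ.IsRegular)
    (hc : Cardinal.continuum < κ) (S : Set κ.ord.ToType)
    (hω : ∀ a ∈ S, Order.cof (Iio a) = Cardinal.aleph0) (hst : IsStationary S) :
    ∃ δ : κ.ord.ToType, Cardinal.aleph0 < Order.cof (Iio δ) ∧
      IsStationary {x : Iio δ | (x : κ.ord.ToType) ∈ S} := by
  by_contra hcon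
  push Not at hcon
  obtain ⟨X, _, _, _, h1, h2⟩ := V1120.Ladder.main' hω hst hcon
    (fun B hB => bounded_of_lt hκ B (hB.trans_lt hc))
    (fun G a => bounded_of_lt hκ _
      (Cardinal.mk_image_le.trans_lt (Cardinal.mk_Iio_toType_ord_lt a)))
  refine h2 (hpos X (fun A hA => ?_)).isCorson
  obtain ⟨Γ, f, hf, hfin, hb⟩ := h1 A hA
  refine ⟨Γ, f, hf.continuous, hf.injective, fun x => ?_, 1, hb⟩
  refine tendsto_const_nhds.congr' ?_
  rw [Filter.EventuallyEq, Filter.eventually_cofinite]
  refine (hfin x).subset ?_
  intro γ hγ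
  exact fun h => hγ h.symm

end Pool.Agent.Results.MP_ba6bfd_gt.StationaryReflection
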